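import Mathlib

/-!
# The blocks of length `14`

For `n = 14` there is no `k` with `1 ≤ k < n` and `2 k + 1` prime for which `((k - 1) n, k n]` and `(k n, (k + 1) n]`
contain equally many primes.
-/

set_option autoImplicit false

namespace Pool.Agent.Results.MP_b665a0_nt.CounterexampleFourteen

/-- The assertion of the question is false: it fails for `n = 14`. -/
theorem result : ¬ ∀ n : ℕ, 1 < n → n ≠ 8 → ∃ k : ℕ, 1 ≤ k ∧ k < n ∧ (2 * k + 1).Prime ∧
    Nat.primeCounting (k * n) - Nat.primeCounting ((k - 1) * n) =
      Nat.primeCounting ((k + 1) * n) - Nat.primeCounting (k * n) := by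
  intro h
  obtain ⟨k, h1, h2, h3, h4⟩ := h 14 (by norm_num) (by norm_num)
  have key : ∀ k < 14, 1 ≤ k → (2 * k + 1).Prime →
      Nat.primeCounting (k * 14) - Nat.primeCounting ((k - 1) * 14) ≠
      Nat.primeCounting ((k + 1) * 14) - Nat.primeCounting (k * 14) := by
    decide +kernel
  exact key k h2 h1 h3 h4

end Pool.Agent.Results.MP_b665a0_nt.CounterexampleFourteen
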